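import Pool.Agent.helper83.ORE.SpecDE

/-!
# Project ore, row DCO: the coefficients `c`
-/

set_option autoImplicit false
set_option linter.unusedVariables false

namespace Pool.Agent.ORE

open Module Pool.Agent.GS

open scoped BigOperators

noncomputable section

/-- the elements fixed by the Frobenius map are in the image of the finite field -/
theorem DCO_fix {E M : Type} [Field E] [Finite E] [Field M] (ψ : E →+* M) (x : M)
    (hx : x ^ Nat.card E = x) : ∃ y, ψ y = x := by
  classical
  haveI : Fintype E := Fintype.ofFinite E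
  have hq : Nat.card E = Fintype.card E := Nat.card_eq_fintype_card
  rw [hq] at hx
  have hq1 : 1 < Fintype.card E := Fintype.one_lt_card
  have hne : (Polynomial.X ^ Fintype.card E - Polynomial.X : Polynomial M) ≠ 0 :=
    FiniteField.X_pow_card_sub_X_ne_zero M hq1
  have hdeg : (Polynomial.X ^ Fintype.card E - Polynomial.X : Polynomial M).natDegree =
      Fintype.card E := FiniteField.X_pow_card_sub_X_natDegree_eq M hq1
  let S : Finset M := Finset.univ.image ψ
  have hS : S.card = Fintype.card E := by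
    rw [Finset.card_image_of_injective _ ψ.injective, Finset.card_univ]
  have hsub : S ⊆ (Polynomial.X ^ Fintype.card E - Polynomial.X : Polynomial M).roots.toFinset := by
    intro z hz
    obtain ⟨y, -, rfl⟩ := Finset.mem_image.1 hz
    rw [Multiset.mem_toFinset, Polynomial.mem_roots hne, Polynomial.IsRoot.def,
      Polynomial.eval_sub, Polynomial.eval_pow, Polynomial.eval_X, ← map_pow,
      FiniteField.pow_card, sub_self]
  have hcard : (Polynomial.X ^ Fintype.card E - Polynomial.X : Polynomial M).roots.toFinset.card ≤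
      S.card := by
    rw [hS]
    refine (Multiset.toFinset_card_le _).trans ?_
    refine (Polynomial.card_roots' _).trans ?_
    rw [hdeg]
  have heq := Finset.eq_of_subset_of_card_le hsub hcard
  have hmem : x ∈ (Polynomial.X ^ Fintype.card E - Polynomial.X : Polynomial M).roots.toFinset := by
    rw [Multiset.mem_toFinset, Polynomial.mem_roots hne, Polynomial.IsRoot.def,
      Polynomial.eval_sub, Polynomial.eval_pow, Polynomial.eval_X, hx, sub_self]
  rw [← heq] at hmem
  obtain ⟨y, -, hy⟩ := Finset.mem_image.1 hmem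
  exact ⟨y, hy⟩

theorem DCO (dfx : DFX_stmt) (dpr : DPR_stmt) : DCO_stmt := by
  intro E K M _ _ _ _ _ _ _ _ h2E n hn hodd σ a ρ h hσ ha hh r hr hhr hrd
  have h2K : (2 : K) = 0 := by
    have := congrArg (algebraMap E K) h2E
    rwa [map_ofNat, map_zero] at this
  have h2M : (2 : M) = 0 := by
    have := congrArg (algebraMap K M) h2K
    rwa [map_ofNat, map_zero] at this
  haveI hcE : CharP E 2 := charP2 h2E
  haveI hcM : CharP M 2 := charP2 h2M
  haveI : Fact (Nat.Prime 2) := ⟨Nat.prime_two⟩
  have hn0 : n ≠ 0 := by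
    rintro rfl
    simp at hodd
  haveI : NeZero n := ⟨hn0⟩
  -- the cardinality of `E`
  obtain ⟨f, hf1, hf⟩ : ∃ f : ℕ, 1 ≤ f ∧ Nat.card E = 2 ^ f := by
    haveI : Fintype E := Fintype.ofFinite E
    obtain ⟨m, -, hm⟩ := FiniteField.card E 2
    exact ⟨m, m.2, by rw [Nat.card_eq_fintype_card, hm]⟩
  have hσM : algebraMap K M σ ≠ 0 := by
    intro h0
    exact hσ ((algebraMap K M).injective (by rw [h0, map_zero]))
  have hh1 : h ≠ 1 := by
    rintro rfl
    apply hσM
    linear_combination hh - h2M
  have hadd : ∀ x y : M, (x + y) ^ Nat.card E = x ^ Nat.card E + y ^ Nat.card E := by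
    intro x y
    rw [hf]
    exact add_pow_char_pow x y 2 f
  have hcase := dfx h2E n hn hodd σ a ρ h hσ ha hh
  obtain ⟨e, he0, he1, he2⟩ := dpr h2M f (Nat.card E) n r h hf hf1 hodd hr hhr hh1 hrd (by
    rcases hcase with h1 | h1
    · exact Or.inl h1.1
    · exact Or.inr h1.1)
  obtain ⟨ω, hω⟩ : ∃ ω, ω = algebraMap K M a + h * (algebraMap K M σ)⁻¹ := ⟨_, rfl⟩
  rw [← hω] at hcase
  let ψ : E →+* M := (algebraMap K M).comp (algebraMap E K)
  have hmemn : ∀ i ∈ Finset.Ico 1 n, n - i ∈ Finset.Ico 1 n := by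
    intro i hi
    rw [Finset.mem_Ico] at hi ⊢
    omega
  have hnn : ∀ i ∈ Finset.Ico 1 n, n - (n - i) = i := by
    intro i hi
    rw [Finset.mem_Ico] at hi
    omega
  -- the elements are fixed by the Frobenius map
  have hfixB : ∀ i ∈ Finset.Ico 1 n, (e i + e (n - i)) ^ Nat.card E = e i + e (n - i) := by
    intro i hi
    rw [hadd]
    rcases hcase with h1 | h1
    · rw [he1 h1.1 i hi, he1 h1.1 (n - i) (hmemn i hi)]
    · rw [he2 h1.1 i hi, he2 h1.1 (n - i) (hmemn i hi), hnn i hi, add_comm]
  have hfixA : ∀ i ∈ Finset.Ico 1 n, (e i + (e i + e (n - i)) * ω) ^ Nat.card E =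
      e i + (e i + e (n - i)) * ω := by
    intro i hi
    rw [hadd, mul_pow, hfixB i hi]
    rcases hcase with h1 | h1
    · rw [he1 h1.1 i hi, h1.2]
    · rw [he2 h1.1 i hi, h1.2]
      linear_combination (e (n - i)) * h2M
  have hexA : ∀ i : ℕ, ∃ y : E, i ∈ Finset.Ico 1 n → ψ y = e i + (e i + e (n - i)) * ω := by
    intro i
    by_cases hi : i ∈ Finset.Ico 1 n
    · obtain ⟨y, hy⟩ := DCO_fix ψ _ (hfixA i hi)
      exact ⟨y, fun _ => hy⟩
    · exact ⟨0, fun h => absurd h hi⟩
  have hexB : ∀ i : ℕ, ∃ y : E, i ∈ Finset.Ico 1 n → ψ y = e i + e (n - i) := by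
    intro i
    by_cases hi : i ∈ Finset.Ico 1 n
    · obtain ⟨y, hy⟩ := DCO_fix ψ _ (hfixB i hi)
      exact ⟨y, fun _ => hy⟩
    · exact ⟨0, fun h => absurd h hi⟩
  choose A hA using hexA
  choose B hB using hexB
  refine ⟨fun i => if i = 0 then 0 else ⟨A i.val, B i.val⟩, ?_, ?_, ?_⟩
  · simp
  · intro i
    by_cases hi : i = 0
    · simp [hi]
    · have hi' : -i ≠ 0 := neg_ne_zero.2 hi
      have hval : (-i).val = n - i.val := by
        rw [ZMod.neg_val, if_neg hi]
      have hmem : i.val ∈ Finset.Ico 1 n := by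
        rw [Finset.mem_Ico]
        refine ⟨?_, ZMod.val_lt i⟩
        rw [Nat.one_le_iff_ne_zero]
        intro h0
        exact hi ((ZMod.val_eq_zero i).1 h0)
      show (if -i = 0 then (0 : QL ρ) else ⟨A (-i).val, B (-i).val⟩) =
        star (if i = 0 then (0 : QL ρ) else ⟨A i.val, B i.val⟩)
      rw [if_neg hi, if_neg hi', hval, QuadraticAlgebra.star_mk]
      have hb : B (n - i.val) = - B i.val := by
        apply ψ.injective
        rw [hB _ (hmemn _ hmem), hnn _ hmem, map_neg, hB _ hmem, neg2 h2M, add_comm]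
      have haa : A (n - i.val) = A i.val + 1 * B i.val := by
        apply ψ.injective
        rw [hA _ (hmemn _ hmem), hnn _ hmem, one_mul, map_add, hB _ hmem, hA _ hmem]
        linear_combination (-e i.val) * h2M
      rw [hb, haa]
  · have hterm : ∀ i ∈ Finset.Ico 1 n, h ^ (n - i) * io a σ h
        ((fun i : ZMod n => if i = 0 then (0 : QL ρ) else ⟨A i.val, B i.val⟩) (i : ZMod n)) =
        e i * h ^ (n - i) := by
      intro i hi
      have hi1 := Finset.mem_Ico.1 hi
      have hval : ((i : ℕ) : ZMod n).val = i := ZMod.val_natCast_of_lt hi1.2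
      have hne : ((i : ℕ) : ZMod n) ≠ 0 := by
        intro h0
        have := congrArg ZMod.val h0
        rw [hval, ZMod.val_zero] at this
        omega
      show h ^ (n - i) * io a σ h
        (if ((i : ℕ) : ZMod n) = 0 then (0 : QL ρ) else ⟨A ((i : ℕ) : ZMod n).val,
          B ((i : ℕ) : ZMod n).val⟩) = e i * h ^ (n - i)
      rw [if_neg hne, hval]
      have h5 : algebraMap K M (algebraMap E K (A i)) = e i + (e i + e (n - i)) * ω := hA i hi
      have h6 : algebraMap K M (algebraMap E K (B i)) = e i + e (n - i) := hB i hi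
      unfold io
      rw [← hω]
      show h ^ (n - i) * (algebraMap K M (algebraMap E K (A i)) +
        algebraMap K M (algebraMap E K (B i)) * ω) = _
      rw [h5, h6]
      linear_combination (h ^ (n - i) * (e i + e (n - i)) * ω) * h2M
    rw [Finset.sum_congr rfl hterm]
    linear_combination he0 - (∑ i ∈ Finset.Ico 1 n, e i * h ^ (n - i)) * h2M

end

end Pool.Agent.ORE
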